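import Pool.Agent.Helper19.Engel.Conrad

set_option autoImplicit false

/-!
Every right order on a k-Engel group is a (right) Conrad order.
-/

namespace Pool.Agent.Results.MP_315210_al.EngelConradian

/-- Let `k` be arbitrary and let `G` be a group satisfying the k-Engel identity. Then every right
order `r` on `G` is a right Conrad order: for all `a, b > 1` there is `n ≥ 1` with
`a < a ^ n * b`. -/
theorem result (k : ℕ) (G : Type*) [Group G]
    (hE : ∀ x y : G, (fun z : G => z⁻¹ * y⁻¹ * z * y)^[k] x = 1)
    (r : G → G → Prop)
    (hirr : ∀ a, ¬ r a a)
    (htrans : ∀ a b c, r a b → r b c → r a c)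
    (htotal : ∀ a b, r a b ∨ a = b ∨ r b a)
    (hright : ∀ a b c, r a b → r (a * c) (b * c)) :
    ∀ a b : G, r 1 a → r 1 b → ∃ n : ℕ, 0 < n ∧ r a (a ^ n * b) := by
  classical
  let _ : LinearOrder G :=
    { le := fun a b => a = b ∨ r a b
      lt := r
      le_refl := fun a => Or.inl rfl
      le_trans := by
        intro a b c hab hbc
        rcases hab with rfl | hab
        · exact hbc
        · rcases hbc with rfl | hbc
          · exact Or.inr hab
          · exact Or.inr (htrans _ _ _ hab hbc)
      lt_iff_le_not_ge := by
        intro a b
        constructor
        · intro h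
          refine ⟨Or.inr h, ?_⟩
          rintro (rfl | h')
          · exact hirr _ h
          · exact hirr _ (htrans _ _ _ h h')
        · rintro ⟨rfl | h, h2⟩
          · exact absurd (Or.inl rfl) h2
          · exact h
      le_antisymm := by
        intro a b hab hba
        rcases hab with rfl | hab
        · rfl
        · rcases hba with rfl | hba
          · rfl
          · exact absurd (htrans _ _ _ hab hba) (hirr _)
      le_total := by
        intro a b
        rcases htotal a b with h | h | h
        · exact Or.inl (Or.inr h)
        · exact Or.inl (Or.inl h)
        · exact Or.inr (Or.inr h)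
      toDecidableLE := Classical.decRel _ }
  have hr : ∀ a b c : G, a ≤ b → a * c ≤ b * c := by
    intro a b c hab
    rcases hab with rfl | hab
    · exact le_rfl
    · exact Or.inr (hright _ _ c hab)
  intro a b ha hb
  exact Pool.Agent.Helper19.Engel.conrad_linear (k := k) (fun x y => hE x y) hr a b ha hb

end Pool.Agent.Results.MP_315210_al.EngelConradian
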