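import Mathlib
import Pool.Agent.Helper84.Kos.Final

/-!
# MP_315210_al: right-orderable k-Engel groups satisfy a positive law depending only on k

For every `k` there are two different positive words `u, v` in two letters such that
`u(a,b) = v(a,b)` for all elements `a, b` of all right-orderable `k`-Engel groups. In particular
no right-orderable `k`-Engel group contains a free non-abelian subsemigroup.
-/

set_option autoImplicit false

namespace Pool.Agent.Results.MP_315210_al.PositiveLaw

universe u w

/-- the iterated commutator `[x, ₙ y]`, where `[x, ₀ y] = x` and `[x, ₙ₊₁ y] = [[x, ₙ y], y]`, with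
`[s, t] = s⁻¹ t⁻¹ s t` -/
def engel {G : Type u} [Group G] (x y : G) : ℕ → G
  | 0 => x
  | n + 1 => (engel x y n)⁻¹ * y⁻¹ * engel x y n * y

/-- `G` is a `k`-Engel group -/
def IsEngel (k : ℕ) (G : Type u) [Group G] : Prop := ∀ x y : G, engel x y k = 1

/-- `G` carries a total order `≤` such that `x ≤ y` implies `x b ≤ y b` -/
def IsRightOrderable (G : Type u) [Group G] : Prop :=
  ∃ le : G → G → Prop, (∀ x, le x x) ∧ (∀ x y, le x y → le y x → x = y) ∧
    (∀ x y z, le x y → le y z → le x z) ∧ (∀ x y, le x y ∨ le y x) ∧
    ∀ x y b, le x y → le (x * b) (y * b)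

/-- the element of `G` represented by the positive word `p` in `a` and `b` -/
def value {G : Type u} [Group G] (a b : G) (p : FreeSemigroup Bool) : G :=
  FreeSemigroup.lift (fun i : Bool => if i then a else b) p

/-- `G` contains a free subsemigroup of rank at least two -/
def HasFreeSubsemigroup (G : Type u) [Group G] : Prop :=
  ∃ (S : Subsemigroup G) (X : Type w), Nontrivial X ∧ Nonempty (FreeSemigroup X ≃* S)

open Pool.Agent.Helper84.Kos Pool.Agent.Helper88.Kos

theorem engel_eq_iterate {G : Type u} [Group G] (x y : G) (n : ℕ) :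
    (fun z : G => z⁻¹ * y⁻¹ * z * y)^[n] x = engel x y n := by
  induction n with
  | zero => rfl
  | succ n ih => rw [Function.iterate_succ_apply', ih]; rfl

theorem map_iterate {Q : Type} {G : Type u} [Group Q] [Group G] (j : Q →* G) (x y : Q) (n : ℕ) :
    j ((fun z : Q => z⁻¹ * y⁻¹ * z * y)^[n] x) = engel (j x) (j y) n := by
  induction n with
  | zero => rfl
  | succ n ih =>
    rw [Function.iterate_succ_apply']
    simp only [map_mul, map_inv, ih]
    rfl

theorem engelG_of_injective {Q : Type} {G : Type u} [Group Q] [Group G] (j : Q →* G)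
    (hj : Function.Injective j) {k : ℕ} (hE : IsEngel k G) : EngelG (k + 1) Q := by
  intro x y
  apply hj
  rw [map_iterate, map_one]
  show (engel (j x) (j y) k)⁻¹ * (j y)⁻¹ * engel (j x) (j y) k * j y = 1
  rw [hE (j x) (j y)]
  group

theorem rightOrd_of_injective {Q : Type} {G : Type u} [Group Q] [Group G] (j : Q →* G)
    (hj : Function.Injective j) (hR : IsRightOrderable G) : RightOrd Q := by
  obtain ⟨le, h1, h2, h3, h4, h5⟩ := hR
  refine ⟨fun x y => le (j x) (j y) ∧ x ≠ y, fun a h => h.2 rfl, ?_, ?_, ?_⟩
  · rintro a b c ⟨hab, hne⟩ ⟨hbc, hne'⟩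
    refine ⟨h3 _ _ _ hab hbc, ?_⟩
    rintro rfl
    exact hne (hj (h2 _ _ hab hbc))
  · intro a b
    by_cases h : a = b
    · exact Or.inr (Or.inl h)
    · rcases h4 (j a) (j b) with h' | h'
      · exact Or.inl ⟨h', h⟩
      · exact Or.inr (Or.inr ⟨h', Ne.symm h⟩)
  · rintro a b c ⟨hab, hne⟩
    refine ⟨?_, fun h => hne (mul_right_cancel h)⟩
    rw [map_mul, map_mul]
    exact h5 _ _ _ hab

/-- the two positive words -/
def law (c : ℕ) : FreeSemigroup Bool × FreeSemigroup Bool :=
  stp^[c] (FreeSemigroup.of true, FreeSemigroup.of false)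

theorem law_ne (c : ℕ) : (law c).1 ≠ (law c).2 := by
  intro h
  have h4 := stp_head c
  unfold law at h
  rw [h, h4.2] at h4
  exact absurd h4.1 (by decide)

/-- **Theorem.** For every `k` there are two different positive words in two letters which
represent the same element for all choices of two elements of a right-orderable `k`-Engel
group. -/
theorem result (k : ℕ) : ∃ p q : FreeSemigroup Bool, p ≠ q ∧
    ∀ (G : Type u) [Group G], IsEngel k G → IsRightOrderable G →
      ∀ a b : G, value a b p = value a b q := by
  obtain ⟨c, hc⟩ := stmtUniform (k + 1)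
  refine ⟨(law c).1, (law c).2, law_ne c, ?_⟩
  intro G _ hE hR a b
  let f : Bool → G := fun i => if i then a else b
  let F : FreeGroup Bool →* G := FreeGroup.lift f
  let Q : Type := FreeGroup Bool ⧸ F.ker
  let j : Q →* G := QuotientGroup.kerLift F
  have hj : Function.Injective j := QuotientGroup.kerLift_injective F
  let m : FreeGroup Bool →* Q := QuotientGroup.mk' F.ker
  have hjm : ∀ i, j (m (FreeGroup.of i)) = f i := by
    intro i
    show F (FreeGroup.of i) = f i
    simp [F]
  have hgen : Subgroup.closure {m (FreeGroup.of true), m (FreeGroup.of false)} =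
      (⊤ : Subgroup Q) := by
    have h1 : Subgroup.closure (Set.range (FreeGroup.of : Bool → FreeGroup Bool)) = ⊤ :=
      FreeGroup.closure_range_of Bool
    have h2 := congrArg (Subgroup.map m) h1
    rw [MonoidHom.map_closure, Subgroup.map_top_of_surjective m
      (QuotientGroup.mk'_surjective F.ker)] at h2
    rw [← h2]
    congr 1
    ext x
    constructor
    · rintro (rfl | rfl)
      · exact ⟨_, ⟨true, rfl⟩, rfl⟩
      · exact ⟨_, ⟨false, rfl⟩, rfl⟩
    · rintro ⟨_, ⟨i, rfl⟩, rfl⟩
      cases i
      · exact Or.inr rfl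
      · exact Or.inl rfl
  have hbot := g7 (k + 1) c (Nat.le_add_left 1 k) hc Q (engelG_of_injective j hj hE)
    (rightOrd_of_injective j hj hR) _ _ hgen
  let e : Bool → Q := fun i => m (FreeGroup.of i)
  have h1 := stp_mem (e true, e false) c
  rw [hbot, Subgroup.mem_bot, mul_inv_eq_one] at h1
  have h2 := stp_map (FreeSemigroup.lift e) (FreeSemigroup.of true, FreeSemigroup.of false) c
  simp only [FreeSemigroup.lift_of] at h2
  rw [h2] at h1
  have h3 : ∀ p : FreeSemigroup Bool, j (FreeSemigroup.lift e p) = value a b p := by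
    intro p
    unfold value
    induction p using FreeSemigroup.recOnMul with
    | ih1 i => simpa only [FreeSemigroup.lift_of] using hjm i
    | ih2 i y h1 h2 => simp only [map_mul, h1, h2]
  rw [← h3, ← h3]
  exact congrArg j h1

/-- The answer to the question as it is posed: for no `k` does a right-orderable `k`-Engel group
contain a free non-abelian subsemigroup. -/
theorem no_free_subsemigroup (k : ℕ) (G : Type u) [Group G] (hE : IsEngel k G)
    (hR : IsRightOrderable G) : ¬ HasFreeSubsemigroup.{u, w} G := by
  rintro ⟨S, X, hX, ⟨g⟩⟩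
  obtain ⟨x, y, hxy⟩ := hX
  obtain ⟨p, q, hpq, h⟩ := result.{u} k
  have h1 := h G hE hR (g (FreeSemigroup.of x)) (g (FreeSemigroup.of y))
  let s : FreeSemigroup Bool →ₙ* FreeSemigroup X :=
    FreeSemigroup.map fun i : Bool => if i then x else y
  have h2 : ∀ r : FreeSemigroup Bool,
      value ((g (FreeSemigroup.of x) : S) : G) ((g (FreeSemigroup.of y) : S) : G) r =
        ((g (s r) : S) : G) := by
    intro r
    unfold value
    induction r using FreeSemigroup.recOnMul with
    | ih1 i => cases i <;> simp [s]
    | ih2 i y h1 h2 => simp only [map_mul, h1, h2, MulMemClass.coe_mul]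
  rw [h2, h2] at h1
  have h3 : s p = s q := g.injective (Subtype.ext h1)
  apply hpq
  have hinj : Function.Injective (fun i : Bool => if i then x else y) := by
    intro i i' hi
    cases i <;> cases i' <;> simp_all
  have h4 : ∀ r : FreeSemigroup Bool, (s r).head = (if r.head then x else y) ∧
      (s r).tail = r.tail.map (fun i : Bool => if i then x else y) := by
    intro r
    induction r using FreeSemigroup.recOnMul with
    | ih1 i => exact ⟨rfl, rfl⟩
    | ih2 i y h1 h2 =>
      rw [map_mul]
      refine ⟨?_, ?_⟩
      · rw [FreeSemigroup.head_mul, FreeSemigroup.head_mul]; exact h1.1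
      · rw [FreeSemigroup.tail_mul, FreeSemigroup.tail_mul, h1.2, h2.1, h2.2]
        simp
  have h5 := h4 p
  rw [h3] at h5
  have h6 := h4 q
  apply FreeSemigroup.ext
  · exact hinj (h5.1.symm.trans h6.1)
  · exact hinj.list_map (h5.2.symm.trans h6.2)

end Pool.Agent.Results.MP_315210_al.PositiveLaw
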